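import Pool.Agent.Q91.LB.Fp

set_option autoImplicit false

/-! # The Singer conjecture and co-amenable subgroups

The definitions are in `Pool/Agent/Q91/LB/Bet.lean` (`L²`-Betti numbers, co-amenable subgroups),
`Pool/Agent/Q91/LB/Cpx.lean` (complexes, finite chains), `Pool/Agent/Q91/LB/Dual.lean` (the dual
matrix), `Pool/Agent/Q91/LB/Sing.lean` (augmentation, Poincaré duality, Euler characteristic) and
`Pool/Agent/Q91/LB/Fp.lean` (type `FP_s`).
-/

universe u

namespace Pool.Agent.Results.MP_f80465_gt.CoamenableDuality

open Pool.Agent.Q91.LB Pool.Agent.Q91.LB.Bet Pool.Agent.Q91.LB.Cpx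

/-- The assertion of the Singer conjecture for the complex `M` of formal dimension `n`: the
`L²`-Betti numbers vanish outside the middle dimension, and if `n = 2 m` then `(-1) ^ m` times the
Euler characteristic is the `L²`-Betti number in degree `m` and is not negative. -/
def Singer {G : Type u} [Group G] (M : Cx G) (n : ℕ) : Prop :=
  (∀ k, 2 * k ≠ n → b M k = 0) ∧
    ∀ m, n = 2 * m → (((-1) ^ m * chi M n : ℤ) : ℝ) = b M m ∧ 0 ≤ (-1) ^ m * chi M n

/-- For each `k` with `0 < k < n / 2` the `L²`-Betti number of the covering with group `K` is finite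
in degree `k` or in degree `n - k`. -/
def HalfFinite {G : Type u} [Group G] (K : Subgroup G) (r : G ⧸ K → G) (M : Cx G) (n : ℕ) : Prop :=
  ∀ k, 1 ≤ k → 2 * k < n → bK K r M k ≠ ⊤ ∨ bK K r M (n - k) ≠ ⊤

theorem singer_of {G : Type u} [Group G] (M : Cx G) (n : ℕ) (hn : ∀ k, n < k → M.c k = 0)
    (h : ∀ k, 2 * k ≠ n → b M k = 0) : Singer M n := by
  refine ⟨h, ?_⟩
  rintro m rfl
  have he := euler' M (2 * m) hn
  have h1 : ∑ k ∈ Finset.range (2 * m + 1), (-1 : ℝ) ^ k * b M k = (-1) ^ m * b M m := by
    rw [Finset.sum_eq_single m]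
    · intro k _ hk
      rw [h k (by omega), mul_zero]
    · intro hm
      exact absurd (Finset.mem_range.2 (by omega)) hm
  rw [h1] at he
  have h2 : (((-1) ^ m * chi M (2 * m) : ℤ) : ℝ) = b M m := by
    push_cast
    rw [he, ← mul_assoc, ← pow_add, ← two_mul, pow_mul]
    norm_num
  refine ⟨h2, ?_⟩
  have h3 : (0 : ℝ) ≤ (((-1) ^ m * chi M (2 * m) : ℤ) : ℝ) := by
    rw [h2]
    exact b_nonneg M m
  exact_mod_cast h3

/-- **The Singer conjecture and co-amenable subgroups.** Let `M` be a complex of finitely generated
free modules over the group algebra of `G`, zero above degree `n`, which is a resolution of `ℂ` and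
satisfies Poincaré duality of formal dimension `n` (for instance the chain complex of the universal
covering of a closed aspherical `n`-manifold), and let `K` be a co-amenable subgroup of `G` of
infinite index, not necessarily normal. The assertion of the Singer conjecture holds for `M` if one
of the following holds.

(a) For each `k` with `0 < k < n / 2` the `L²`-Betti number over `K` of the covering with group `K`
is finite in degree `k` or in degree `n - k`.
(b) `K` is of type `FP_s` over `ℂ` with `s ≥ n / 2 - 1`.
(c) For some `e = j + 1 ≤ n / 2` the cycles of degree `e` are a direct summand of the chains over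
`K` (this is so if `K` has cohomological dimension at most `e` over `ℂ`). -/
theorem result {G : Type u} [Group G] (M : Cx G) (n : ℕ) (hn : ∀ k, n < k → M.c k = 0)
    (hA : Augmented M) (hM : ∀ k, ExactAt M k) (χ : G →* ℤˣ) (D : Duality M n χ)
    (K : Subgroup G) (hK : CoAmenable K) (hinf : Infinite (G ⧸ K))
    (r : G ⧸ K → G) (hr : ∀ x, (r x : G ⧸ K) = x)
    (h : HalfFinite K r M n ∨ (∃ s, n ≤ 2 * s + 2 ∧ TypeFP K s) ∨
      ∃ j, 2 * (j + 1) ≤ n ∧ CyclesSplit K M j) :
    Singer M n := by
  have hsymm := fun k l (hkl : k + l = n) => duality_eq χ M n hn D k l hkl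
  have h0 : b M 0 = 0 := by
    apply b_vanish' M K hK hinf r hr
    exact ne_top_of_le_ne_top ENNReal.one_ne_top (cover_aug K r hr M hA)
  have key : HalfFinite K r M n → Singer M n := by
    intro hf
    apply singer_of M n hn
    have hlow : ∀ k, 2 * k < n → b M k = 0 := by
      intro k hk
      rcases Nat.eq_zero_or_pos k with rfl | hk0
      · exact h0
      · rcases hf k hk0 hk with h1 | h1
        · exact b_vanish' M K hK hinf r hr k h1
        · rw [hsymm k (n - k) (by omega)]
          exact b_vanish' M K hK hinf r hr _ h1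
    intro k hk
    by_cases hkn : n < k
    · exact b_of_zero M k (hn k hkn)
    · by_cases h2 : 2 * k < n
      · exact hlow k h2
      · rw [hsymm k (n - k) (by omega)]
        exact hlow _ (by omega)
  rcases h with h | ⟨s, hs, hF⟩ | ⟨j, hj, hc⟩
  · exact key h
  · apply key
    intro k _ hk
    exact Or.inl (finite_of_FP K r hr M hA hM s hF k (by omega))
  · apply key
    intro k hk hkn
    right
    obtain ⟨i, hi⟩ : ∃ i, n - k = i + 2 := ⟨n - k - 2, by omega⟩
    rw [hi]
    change bettiCover K r (M.d (i + 1)) (M.d (i + 2)) ≠ ⊤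
    rw [cover_zero_of_split K r hr M j (fun k _ => hM k) hc i (by omega)]
    exact ENNReal.zero_ne_top

end Pool.Agent.Results.MP_f80465_gt.CoamenableDuality
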