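import Pool.Agent.Q24.SG.Sphere
import Pool.Agent.Y132.SI.Up

/-!
# The Singer conjecture for reflection manifolds with few facets

Let `L` be the flag complex of the finite graph `G` and suppose that `L` is a real homology manifold with the real
homology of the `(n-1)`-sphere (`HSph n G`; for example any flag triangulation of the `(n-1)`-sphere). The Davis
complex of the right-angled Coxeter group `W G` is then a contractible real homology `n`-manifold (a topological
manifold if `L` is a combinatorial sphere), and its quotients by the torsion-free subgroups of finite index of `W G`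
are closed aspherical `n`-manifolds, tiled by copies of the dual cell of `L`, which has as many facets as `L` has
vertices. `L` has at least `2 n` vertices.

We show that the reduced `ℓ²`-homology of the Davis complex is concentrated in the degrees between `n - k` and `k`
if `L` has `2 n + k` vertices. So the Singer conjecture holds if `L` has at most `5 n / 2` vertices; if it has fewer
than `5 n / 2` vertices then the reduced `ℓ²`-homology vanishes in all degrees.

The proof: if the vertices are removed one after the other, an `ℓ²`-homology class of degree `i` leaves a simplex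
`v_1, ..., v_i` of `L` such that every `v_j` has at least two non-neighbours among the vertices of the link of
`v_1, ..., v_(j-1)`; this needs `3 i + 2 (n - i)` vertices. Below the middle one uses duality.
-/

set_option autoImplicit false

namespace Pool.Agent.Results.MP_f80465_gt.FewVertices

open Pool.Agent.W907.SG Pool.Agent.TH652.Above Pool.Agent.Q24.SG Pool.Agent.Y132.SI

/-- Let the flag complex of `G` be a real homology manifold with the real homology of the `(n-1)`-sphere.
(1) If it has at most `2 n + k` vertices then the reduced `ℓ²`-homology of the Davis complex of `W G` vanishes in the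
degrees `i > k` and `i < n - k`; moreover for every `ε > 0` there is a finite set `E` of nontrivial elements of `W G`
such that the `i`-th real Betti number of `H` (the dimension of the space of the `H`-invariant real harmonic
`i`-chains of the Davis complex) is at most `ε [W G : H]` for these `i` and all subgroups `H` of finite index which
contain no conjugate of an element of `E`.
(2) If it has at most `5 n / 2` vertices then the reduced `ℓ²`-homology vanishes in all degrees `i ≠ n / 2`.
(3) If it has less than `5 n / 2` vertices then the reduced `ℓ²`-homology vanishes in all degrees. -/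
theorem result : ∀ (n : ℕ) (V : Type) [Fintype V] [LinearOrder V] (G : SimpleGraph V), HSph n G →
    (∀ k : ℕ, Fintype.card V ≤ 2 * n + k → ∀ i : ℕ, (k < i ∨ i + k < n) → L2Van G i ∧
      ∀ ε : ℝ, 0 < ε → ∃ E : Finset (W G), (1 : W G) ∉ E ∧
        ∀ H : Subgroup (W G), H.FiniteIndex → (∀ g ∈ E, ∀ x : W G, x * g * x⁻¹ ∉ H) →
          (Module.finrank ℝ (HInv G H i) : ℝ) ≤ ε * H.index) ∧
    (2 * Fintype.card V ≤ 5 * n → ∀ i : ℕ, 2 * i ≠ n → L2Van G i) ∧
    (2 * Fintype.card V < 5 * n → ∀ i : ℕ, L2Van G i) := by
  intro n V _ _ G hS
  refine ⟨fun k hk i hi => ?_, fun h i hi => ?_, fun h i => ?_⟩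
  · have hL := few_sphere hS hk i hi
    refine ⟨hL, fun ε hε => ?_⟩
    obtain ⟨N, hN⟩ := exists_nat_gt (1 / ε)
    have hN0 : (0 : ℝ) < N := lt_of_le_of_lt (by positivity) hN
    have hNε : 1 < N * ε := (div_lt_iff₀ hε).1 hN
    obtain ⟨E, h1, h2⟩ := growth_one G i hL N
    refine ⟨E, h1, fun H hfin hE => ?_⟩
    have h3 : ((N * Module.finrank ℝ (HInv G H i) : ℕ) : ℝ) ≤ H.index := by exact_mod_cast h2 H hfin hE
    push_cast at h3
    have h4 : (0 : ℝ) ≤ H.index := Nat.cast_nonneg _
    have h5 : (0 : ℝ) ≤ (Module.finrank ℝ (HInv G H i) : ℝ) := Nat.cast_nonneg _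
    have h6 : (Module.finrank ℝ (HInv G H i) : ℝ) ≤ H.index / N := by
      rw [le_div_iff₀ hN0]; linarith
    refine h6.trans ?_
    rw [div_le_iff₀ hN0]
    nlinarith
  · have h2 := two_mul_le hS n ∅ (by simp) (by simp)
    have h3 : (Set.ncard (Pool.Agent.W907.SM.lk G ∅)) ≤ Fintype.card V := by
      rw [← Nat.card_eq_fintype_card, ← Set.ncard_univ]
      exact Set.ncard_le_ncard (Set.subset_univ _) (Set.toFinite _)
    exact few_sphere (k := Fintype.card V - 2 * n) hS (by omega) i (by omega)
  · have h2 := two_mul_le hS n ∅ (by simp) (by simp)
    have h3 : (Set.ncard (Pool.Agent.W907.SM.lk G ∅)) ≤ Fintype.card V := by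
      rw [← Nat.card_eq_fintype_card, ← Set.ncard_univ]
      exact Set.ncard_le_ncard (Set.subset_univ _) (Set.toFinite _)
    exact few_sphere (k := Fintype.card V - 2 * n) hS (by omega) i (by omega)

end Pool.Agent.Results.MP_f80465_gt.FewVertices
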