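import Pool.Agent.Q91.TE.PeakG
import Pool.Agent.Q91.LB.Sing

set_option autoImplicit false
set_option linter.unusedSectionVars false

/-! # The Singer conjecture and cells with unique outputs on the cosets of a co-amenable subgroup -/

universe u v w

namespace Pool.Agent.Results.MP_f80465_gt.MatchedCells

open Pool.Agent.Q91 Pool.Agent.Q91.TE
open Pool.Agent.Q91.LB.Bet (Chain move CoAmenable betti)
open Pool.Agent.Q91.LB.Cpx

open Classical in
/-- The part of `a` on the set of the `s` in `G` which map the coset `x` to the coset `y`. -/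
noncomputable def part {G : Type u} [Group G] (K : Subgroup G) (a : G →₀ ℂ) (x y : G ⧸ K) :
    G →₀ ℂ :=
  a.filter fun s => move s x = y

/-- The kernel of the block of the matrix `A` from the coset `x` to the coset `y` with the rows `O`
and the columns `P`: all square-summable functions on `G × J`, zero outside the columns `P`, with
`∑ j ∈ P, ∑ s, a s * f (s⁻¹ g, j) = 0` for all `g` and all rows `i` in `O`, where `a` is the part of
`A i j` from `x` to `y`. -/
def blockKernel {G : Type u} [Group G] (K : Subgroup G) {I : Type v} {J : Type w}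
    (A : I → J → (G →₀ ℂ)) (x y : G ⧸ K) (O : Finset I) (P : Finset J) :
    Set (lp (fun _ : G × J => ℂ) 2) :=
  {f | (∀ (g : G) (j : J), j ∉ P → f (g, j) = 0) ∧
    ∀ (g : G), ∀ i ∈ O, ∑ j ∈ P, ∑ s ∈ (part K (A i j) x y).support,
      part K (A i j) x y s * f (s⁻¹ * g, j) = 0}

/-- Every nonempty finite set `Z` of pairs `(x, j)` of a coset `x` and a column `j` in `C` contains
a set `{x} × P`, `P` nonempty, such that for some coset `y` and some set `O` of rows no other pair
`(z, k)` in `Z` has an output `(s z, i)`, `s` in the support of `A i k`, in `{y} × O`, and such that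
the block from `x` to `y` with the rows `O` and the columns `P` has zero kernel. -/
def UniqueBlocks {G : Type u} [Group G] (K : Subgroup G) {I : Type v} {J : Type w}
    (A : I → J → (G →₀ ℂ)) (C : Finset J) : Prop :=
  ∀ Z : Finset ((G ⧸ K) × J), Z.Nonempty → (∀ p ∈ Z, p.2 ∈ C) →
    ∃ (x y : G ⧸ K) (O : Finset I) (P : Finset J), P.Nonempty ∧ (∀ j ∈ P, (x, j) ∈ Z) ∧
      (∀ q ∈ Z, (q.1 = x ∧ q.2 ∈ P) ∨ ∀ i ∈ O, ∀ s ∈ (A i q.2).support, move s q.1 ≠ y) ∧
      ∀ f ∈ blockKernel K A x y O P, f = 0

/-- Every nonempty finite set `Z` of pairs of a coset and a column in `C` contains a pair `(x, j)`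
such that for some row `i` and some `t` in the support of `A i j` no other pair `(z, k)` in `Z` has
the output `(t x, i) = (s z, i)` with `s` in the support of `A i k`. -/
def UniqueOutputs {G : Type u} [Group G] (K : Subgroup G) {I : Type v} {J : Type w}
    (A : I → J → (G →₀ ℂ)) (C : Finset J) : Prop :=
  ∀ Z : Finset ((G ⧸ K) × J), Z.Nonempty → (∀ p ∈ Z, p.2 ∈ C) →
    ∃ p ∈ Z, ∃ i, ∃ t ∈ (A i p.2).support,
      ∀ q ∈ Z, ∀ s ∈ (A i q.2).support, move s q.1 = move t p.1 → q = p

/-- `α * f` is nonzero for every nonzero square-summable `f`, where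
`(α * f)(g) = ∑ α(k) f(k⁻¹ g)`. -/
def Regular {G : Type u} [Group G] (α : G →₀ ℂ) : Prop :=
  ∀ f : G → ℂ, Memℓp f 2 → f ≠ 0 → ∃ g : G, ∑ k ∈ α.support, α k * f (k⁻¹ * g) ≠ 0

/-- The nonzero parts of the entries in the columns in `C` are regular. -/
def RegularParts {G : Type u} [Group G] (K : Subgroup G) {I : Type v} {J : Type w}
    (A : I → J → (G →₀ ℂ)) (C : Finset J) : Prop :=
  ∀ i, ∀ j ∈ C, ∀ x y : G ⧸ K, part K (A i j) x y ≠ 0 → Regular (part K (A i j) x y)

/-- For some total order on the cosets `gK` invariant under `G`, the leading block at each coset `x`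
has zero kernel: there is an upper bound `y` for the cosets `s x` with `s` in the support of an entry
in the columns `C` such that the block from `x` to `y` with all rows and the columns `C` has zero
kernel. -/
def LeadingBlocks {G : Type u} [Group G] (K : Subgroup G) {I : Type v} {J : Type w} [Fintype I]
    (A : I → J → (G →₀ ℂ)) (C : Finset J) : Prop :=
  ∃ _ : LinearOrder (G ⧸ K), (∀ (g : G) (x y : G ⧸ K), x < y → move g x < move g y) ∧
    ∀ x : G ⧸ K, ∃ y : G ⧸ K, (∀ i, ∀ j ∈ C, ∀ s ∈ (A i j).support, move s x ≤ y) ∧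
      ∀ f ∈ blockKernel K A x y Finset.univ C, f = 0

/-- The number of the cells of degree `k` that are matched by the sets `C 0`, `C 1`, ... of cells
(`C k` is a set of cells of degree `k + 1`): `|C 0|` for `k = 0`, and `|C (k - 1)| + |C k|` for
`k > 0`. -/
def matched {c : ℕ → ℕ} (C : ∀ k, Finset (Fin (c (k + 1)))) : ℕ → ℕ
  | 0 => (C 0).card
  | k + 1 => (C k).card + (C (k + 1)).card

/-- The assertion of the Singer conjecture for the complex `M` of formal dimension `n`: the
`L²`-Betti numbers vanish outside the middle dimension, and if `n = 2 m` then `(-1) ^ m` times the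
Euler characteristic is the `L²`-Betti number in degree `m` and is not negative. -/
def Singer {G : Type u} [Group G] (M : Cx G) (n : ℕ) : Prop :=
  (∀ k, 2 * k ≠ n → b M k = 0) ∧
    ∀ m, n = 2 * m → (((-1) ^ m * chi M n : ℤ) : ℝ) = b M m ∧ 0 ≤ (-1) ^ m * chi M n

section
variable {G : Type u} [Group G] {I : Type v} {J : Type w} [Fintype I] [Fintype J] [DecidableEq I]
  [DecidableEq J]

theorem block_bot (K : Subgroup G) (A : I → J → (G →₀ ℂ)) (x y : G ⧸ K) (O : Finset I)
    (P : Finset J) (h : ∀ f ∈ blockKernel K A x y O P, f = 0) : PM.BK K A x y O P = ⊥ := by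
  rw [Submodule.eq_bot_iff]
  intro f hf
  exact h f ((PM.mem_BK K A x y O P f).1 hf)

theorem bound (K : Subgroup G) (hK : CoAmenable K) (A : I → J → (G →₀ ℂ)) (C : Finset J)
    (hU : UniqueBlocks K A C) :
    W649.ZL.vd (LinearMap.ker (LB.opM A : W649.ZL.EE G J →ₗ[ℂ] W649.ZL.EE G I))
      ≤ Fintype.card J - C.card := by
  classical
  have h1 := PM.mainG K hK A (fun j => if j ∈ C then 0 else 1) (by
    intro Z hZ
    by_cases hC : ∀ p ∈ Z, p.2 ∈ C
    · obtain ⟨x, y, O, P, hP, hPZ, huniq, hle⟩ := hU Z hZ hC
      refine Or.inr ⟨x, y, O, P, hP, hPZ, huniq, ?_⟩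
      rw [block_bot K A x y O P hle, W649.ZL.vd_bot]
      exact Finset.sum_nonneg fun j _ => by split_ifs <;> norm_num
    · push Not at hC
      obtain ⟨p, hp, hpC⟩ := hC
      exact Or.inl ⟨p, hp, le_of_eq (if_neg hpC).symm⟩)
  refine h1.trans (le_of_eq ?_)
  have h2 : ∀ j : J, (if j ∈ C then (0 : ℝ) else 1) = 1 - if j ∈ C then (1 : ℝ) else 0 := by
    intro j
    split_ifs <;> ring
  rw [Finset.sum_congr rfl fun j _ => h2 j, Finset.sum_sub_distrib, Finset.sum_ite_mem,
    Finset.univ_inter]
  simp

/-- right translate of an element of the group algebra -/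
theorem cop_right (a : G) (α : G →₀ ℂ) :
    W649.ZL.cop (α.mapDomain (fun x => x * a)) = (W649.ZL.cop α).comp (W649.ZL.Ltr a) := by
  induction α using Finsupp.induction_linear with
  | zero => rw [Finsupp.mapDomain_zero, map_zero, ContinuousLinearMap.zero_comp]
  | add p q hp hq => rw [Finsupp.mapDomain_add, map_add, hp, hq, map_add,
      ContinuousLinearMap.add_comp]
  | single x c =>
    rw [Finsupp.mapDomain_single, W649.ZL.cop_single, W649.ZL.cop_single, W649.ZL.Ltr_mul,
      ContinuousLinearMap.smul_comp]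

theorem part_injective (K : Subgroup G) (hreg : ∀ β : K →₀ ℂ, β ≠ 0 → Regular β) (α : G →₀ ℂ)
    (x y : G ⧸ K) (h : part K α x y ≠ 0) : Function.Injective (W649.ZL.cop (part K α x y)) := by
  classical
  obtain ⟨a, rfl⟩ := QuotientGroup.mk_surjective x
  obtain ⟨b, rfl⟩ := QuotientGroup.mk_surjective y
  set π := part K α (a : G ⧸ K) (b : G ⧸ K) with hπ
  set δ := π.mapDomain (fun s => b⁻¹ * s) with hδ
  set γ := δ.mapDomain (fun s => s * a) with hγ
  have hinj1 : Function.Injective (fun s : G => b⁻¹ * s) := mul_right_injective b⁻¹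
  have hinj2 : Function.Injective (fun s : G => s * a) := mul_left_injective a
  have hγ0 : γ ≠ 0 := by
    intro h0
    apply h
    apply Finsupp.mapDomain_injective hinj1
    rw [Finsupp.mapDomain_zero, ← hδ]
    apply Finsupp.mapDomain_injective hinj2
    rw [Finsupp.mapDomain_zero, ← hγ, h0]
  have hsup : ∀ t ∈ γ.support, t ∈ K := by
    intro t ht
    rw [hγ, Finsupp.mapDomain_support_of_injective hinj2, Finset.mem_image] at ht
    obtain ⟨u, hu, rfl⟩ := ht
    rw [hδ, Finsupp.mapDomain_support_of_injective hinj1, Finset.mem_image] at hu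
    obtain ⟨s, hs, rfl⟩ := hu
    have h1 := ((mem_cpart K α (a : G ⧸ K) (b : G ⧸ K) s).1 hs).2
    have h2 : ((b : G) : G ⧸ K) = ((s * a : G) : G ⧸ K) := h1.symm
    rw [QuotientGroup.eq] at h2
    change b⁻¹ * s * a ∈ K
    rw [mul_assoc]
    exact h2
  have h1 : Function.Injective (W649.ZL.cop γ) := by
    apply W649.ZL.injective_of_subgroup K γ hsup
    apply (W649.ZL.regular_iff _).1
    apply hreg
    intro h0
    apply hγ0
    ext t
    by_cases ht : t ∈ γ.support
    · have h2 := DFunLike.congr_fun h0 ⟨t, hsup t ht⟩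
      rw [Finsupp.comapDomain_apply] at h2
      exact h2
    · exact Finsupp.notMem_support_iff.1 ht
  have h2 : Function.Injective (W649.ZL.cop δ) := by
    have h3 : W649.ZL.cop δ = (W649.ZL.cop γ).comp (W649.ZL.Ltr a⁻¹) := by
      rw [hγ, cop_right, ContinuousLinearMap.comp_assoc, ← W649.ZL.Ltr_mul, mul_inv_cancel,
        W649.ZL.Ltr_one, ContinuousLinearMap.comp_id]
    rw [h3]
    exact h1.comp (W649.ZL.Ltr_injective a⁻¹)
  rw [hδ, W649.ZL.cop_mapDomain] at h2
  exact Function.Injective.of_comp (f := W649.ZL.Ltr b⁻¹) h2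

theorem of_unique (K : Subgroup G) (A : I → J → (G →₀ ℂ)) (C : Finset J)
    (hU : UniqueOutputs K A C) (hR : RegularParts K A C) : UniqueBlocks K A C := by
  classical
  intro Z hZ hC
  obtain ⟨⟨x, j⟩, hp, i, t, ht, huniq⟩ := hU Z hZ hC
  refine ⟨x, move t x, {i}, {j}, Finset.singleton_nonempty _, ?_, ?_, ?_⟩
  · intro k hk
    rw [Finset.mem_singleton.1 hk]
    exact hp
  · intro q hq
    by_cases hqp : q = (x, j)
    · left
      subst hqp
      exact ⟨rfl, Finset.mem_singleton_self _⟩
    · right
      intro i' hi' s hs he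
      rw [Finset.mem_singleton.1 hi'] at hs
      exact hqp (huniq q hq s hs he)
  · rintro f ⟨h1, h2⟩
    have hne : part K (A i j) x (move t x) ≠ 0 := by
      intro h0
      have h4 : t ∈ (cpart K (A i j) x (t • x)).support :=
        (mem_cpart K (A i j) x _ t).2 ⟨ht, rfl⟩
      change part K (A i j) x (move t x) = 0 at h0
      have h5 : cpart K (A i j) x (t • x) = 0 := h0
      rw [h5] at h4
      simp at h4
    have hreg := hR i j (hC _ hp) x (move t x) hne
    have hinj : Function.Injective (fun g : G => (g, j)) := fun a b h => congrArg Prod.fst h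
    have hmem : Memℓp (fun g : G => f (g, j)) 2 := by
      rw [W649.ZL.memlp_two_iff]
      exact ((W649.ZL.memlp_two_iff _).1 f.2).comp_injective hinj
    have hf0 : (fun g : G => f (g, j)) = 0 := by
      by_contra hne0
      obtain ⟨g, hg⟩ := hreg _ hmem hne0
      apply hg
      have h6 := h2 g i (Finset.mem_singleton_self _)
      rw [Finset.sum_singleton] at h6
      exact h6
    ext ⟨g, k⟩
    by_cases hk : k = j
    · subst hk
      exact congrFun hf0 g
    · exact h1 g k (fun h => hk (Finset.mem_singleton.1 h))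

theorem of_leading (K : Subgroup G) (A : I → J → (G →₀ ℂ)) (C : Finset J)
    (hL : LeadingBlocks K A C) : UniqueBlocks K A C := by
  classical
  obtain ⟨inst, hinv, hlead⟩ := hL
  intro Z hZ hC
  obtain ⟨p, hp, hmax⟩ := Finset.exists_max_image Z (fun p => p.1) hZ
  obtain ⟨y, hy, hker⟩ := hlead p.1
  set P : Finset J := (Z.filter fun q => q.1 = p.1).image Prod.snd with hPdef
  have hmemP : ∀ j, j ∈ P ↔ (p.1, j) ∈ Z := by
    intro j
    rw [hPdef, Finset.mem_image]
    constructor
    · rintro ⟨q, hq, rfl⟩
      obtain ⟨hqZ, hq1⟩ := Finset.mem_filter.1 hq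
      rw [← hq1]
      exact hqZ
    · intro h
      exact ⟨(p.1, j), Finset.mem_filter.2 ⟨h, rfl⟩, rfl⟩
  refine ⟨p.1, y, Finset.univ, P, ⟨p.2, (hmemP _).2 hp⟩, fun j hj => (hmemP j).1 hj, ?_, ?_⟩
  · intro q hq
    by_cases hqx : q.1 = p.1
    · left
      refine ⟨hqx, (hmemP _).2 ?_⟩
      rw [← hqx]
      exact hq
    · right
      intro i _ s hs
      have h1 : q.1 < p.1 := lt_of_le_of_ne (hmax q hq) hqx
      have h2 := hinv s q.1 p.1 h1
      exact ne_of_lt (h2.trans_le (hy i q.2 (hC q hq) s hs))
  · rintro f ⟨h1, h2⟩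
    apply hker f
    have hPC : P ⊆ C := fun j hj => hC _ ((hmemP j).1 hj)
    refine ⟨fun g j hj => h1 g j (fun h => hj (hPC h)), fun g i hi => ?_⟩
    rw [← Finset.sum_subset hPC]
    · exact h2 g i hi
    · intro j _ hj
      refine Finset.sum_eq_zero fun s _ => ?_
      rw [h1 _ j hj, mul_zero]

end

theorem singer_of {G : Type u} [Group G] (M : Cx G) (n : ℕ) (hn : ∀ k, n < k → M.c k = 0)
    (h : ∀ k, 2 * k ≠ n → b M k = 0) : Singer M n := by
  refine ⟨h, ?_⟩
  rintro m rfl
  have he := euler' M (2 * m) hn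
  have h1 : ∑ k ∈ Finset.range (2 * m + 1), (-1 : ℝ) ^ k * b M k = (-1) ^ m * b M m := by
    rw [Finset.sum_eq_single m]
    · intro k _ hk
      rw [h k (by omega), mul_zero]
    · intro hm
      exact absurd (Finset.mem_range.2 (by omega)) hm
  rw [h1] at he
  have h2 : (((-1) ^ m * chi M (2 * m) : ℤ) : ℝ) = b M m := by
    push_cast
    rw [he, ← mul_assoc, ← pow_add, ← two_mul, pow_mul]
    norm_num
  refine ⟨h2, ?_⟩
  have h3 : (0 : ℝ) ≤ (((-1) ^ m * chi M (2 * m) : ℤ) : ℝ) := by
    rw [h2]
    exact b_nonneg M m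
  exact_mod_cast h3

/-- the rank of a boundary map -/
theorem rk_ge {G : Type u} [Group G] (M : Cx G) (K : Subgroup G) (hK : CoAmenable K) (k : ℕ)
    (C : Finset (Fin (M.c (k + 1)))) (hU : UniqueBlocks K (M.d k) C) : (C.card : ℝ) ≤ rk M k := by
  have h1 := bound K hK (M.d k) C hU
  have h2 := W649.ZL.ker_add_range (LB.opM (M.d k)) (LB.opM_eqv _)
  change (C.card : ℝ) ≤ W649.ZL.vd (LinearMap.range (LB.opM (M.d k) :
    W649.ZL.EE G (Fin (M.c (k + 1))) →ₗ[ℂ] W649.ZL.EE G (Fin (M.c k))))
  linarith

theorem b_le {G : Type u} [Group G] (M : Cx G) (K : Subgroup G) (hK : CoAmenable K)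
    (C : ∀ k, Finset (Fin (M.c (k + 1)))) (hU : ∀ k, UniqueBlocks K (M.d k) (C k)) (k : ℕ) :
    b M k ≤ M.c k - matched C k := by
  cases k with
  | zero =>
    rw [b_zero']
    have := rk_ge M K hK 0 (C 0) (hU 0)
    unfold matched
    linarith
  | succ k =>
    rw [b_succ']
    have h1 := rk_ge M K hK k (C k) (hU k)
    have h2 := rk_ge M K hK (k + 1) (C (k + 1)) (hU (k + 1))
    unfold matched
    push_cast
    linarith

/-- **The Singer conjecture and cells with unique outputs.** Let `M` be a complex of finitely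
generated free modules over the group algebra of `G` (for instance the chain complex of the universal
covering of a finite complex), `K` a co-amenable subgroup of `G`, not necessarily normal, and for
each `k` let `C k` be a set of cells of degree `k + 1` such that the boundary map in degree `k + 1`
has unique blocks on the cosets `gK` and the columns `C k`.

1. The `L²`-Betti number of degree `k` is at most the number of the cells of degree `k` which are not
matched; it is zero if all of them are matched.
2. If `M` is zero above degree `n`, satisfies Poincaré duality of formal dimension `n` and all cells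
of degree `k < n / 2` are matched, the assertion of the Singer conjecture holds for `M`.
3. A matrix has unique blocks if it has unique outputs and regular parts. The parts are regular if
`G` is torsion-free and they have at most two terms, and also if the nonzero elements of the group
algebra of `K` are regular.
4. A matrix has unique blocks if its leading blocks for an invariant total order on the cosets have
zero kernel. -/
theorem result {G : Type u} [Group G] (K : Subgroup G) :
    (CoAmenable K → ∀ (M : Cx G) (C : ∀ k, Finset (Fin (M.c (k + 1)))),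
      (∀ k, UniqueBlocks K (M.d k) (C k)) →
      (∀ k, b M k ≤ M.c k - matched C k) ∧
      (∀ k, matched C k = M.c k → b M k = 0) ∧
      ∀ (n : ℕ) (χ : G →* ℤˣ), (∀ k, n < k → M.c k = 0) → Duality M n χ →
        (∀ k, 2 * k < n → matched C k = M.c k) → Singer M n) ∧
    ∀ {p q : ℕ} (A : Fin p → Fin q → (G →₀ ℂ)) (C : Finset (Fin q)),
      (UniqueOutputs K A C → RegularParts K A C → UniqueBlocks K A C) ∧
      ((∀ g : G, ∀ n : ℕ, 0 < n → g ^ n = 1 → g = 1) →
        (∀ i, ∀ j ∈ C, ∀ x y : G ⧸ K, (part K (A i j) x y).support.card ≤ 2) →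
        RegularParts K A C) ∧
      ((∀ β : K →₀ ℂ, β ≠ 0 → Regular β) → RegularParts K A C) ∧
      (LeadingBlocks K A C → UniqueBlocks K A C) := by
  classical
  refine ⟨fun hK M C hU => ?_, fun A C => ⟨of_unique K A C, ?_, ?_, of_leading K A C⟩⟩
  · have h0 : ∀ k, matched C k = M.c k → b M k = 0 := by
      intro k hk
      apply le_antisymm _ (b_nonneg M k)
      have := b_le M K hK C hU k
      rw [hk, sub_self] at this
      exact this
    refine ⟨b_le M K hK C hU, h0, fun n χ hn D hm => ?_⟩
    apply singer_of M n hn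
    intro k hk
    by_cases hkn : n < k
    · exact b_of_zero M k (hn k hkn)
    · by_cases h2 : 2 * k < n
      · exact h0 k (hm k h2)
      · rw [duality_eq χ M n hn D k (n - k) (by omega)]
        exact h0 _ (hm _ (by omega))
  · intro htf h2 i j hj x y hne
    exact (W649.ZL.regular_iff _).2 (injective_le_two htf _ hne (h2 i j hj x y))
  · intro hreg i j hj x y hne
    exact (W649.ZL.regular_iff _).2 (part_injective K hreg (A i j) x y hne)

end Pool.Agent.Results.MP_f80465_gt.MatchedCells
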