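import Pool.Agent.Q24.SG.Codim

/-!
# Davis manifolds whose `ℓ²`-homology is concentrated near the middle dimension

Let `L` be the flag complex of the finite graph `G` and suppose that `L` is a real homology manifold with the real
homology of the `(n-1)`-sphere (`HSph n G`). The quotients of the Davis complex of the right-angled Coxeter group
`W G` by torsion-free subgroups of finite index of `W G` are closed aspherical (real homology) `n`-manifolds.

The class `AR n` of finite graphs contains the class `AQ n` of the starting files (barycentric subdivisions of all
triangulated `(n-1)`-spheres and much more), all graphs with at most `3 n / 2 + 2` vertices for even `n`, and is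
closed under the operations listed in its definition.

The known results in high dimensions (starting files) give the Singer conjecture for even `n` if the links of all
vertices belong to the class `n - 1`. For odd `n`, and for weaker conditions on the links, we show here that the
reduced `ℓ²`-homology vanishes outside the degrees close to `n / 2`: if the links of all simplices with `r` vertices
belong to `AR (n - r)` then it vanishes in all degrees `i` with `|2 i - n| > r`. In particular for odd `n`, if the
links of all vertices outside a set which spans a subcomplex in the class `AR (n + 1)` (for example a subcomplex of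
dimension `≤ (n - 1) / 2`, or any set of at most `(3 n + 7) / 2` vertices) are in the class `AR n` then only the two
(equal) `ℓ²`-Betti numbers in the degrees `(n - 1) / 2` and `(n + 1) / 2` can be different from zero.
-/

set_option autoImplicit false

namespace Pool.Agent.Results.MP_f80465_gt.NearMiddle

open Pool.Agent.W907.SG Pool.Agent.TH652.Above Pool.Agent.Q24.SG

/-- Let the flag complex of `G` be a real homology manifold with the real homology of the `(n-1)`-sphere.
(1) If `G` is in the class `AR (n + r)` then the reduced `ℓ²`-homology of the Davis complex of `W G` vanishes in all
degrees `i` with `|2 i - n| > r`.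
(2) This holds if the links of all simplices with `r` vertices are in the class `AR (n - r)`.
(3) Let `n = 2 m + 1`, and let `B` be a set of vertices which spans a subcomplex in the class `AR (2 m + 2)`. If the
links of all vertices outside `B` are in the class `AR (2 m + 1)` then the reduced `ℓ²`-homology vanishes in all
degrees different from `m` and `m + 1`. -/
theorem result : ∀ (n : ℕ) (V : Type) [Fintype V] [LinearOrder V] (G : SimpleGraph V), HSph n G →
    (∀ r : ℕ, AR (n + r) G → ∀ i : ℕ, (2 * i + r < n ∨ n + r < 2 * i) → L2Van G i) ∧
    (∀ r : ℕ, r ≤ n → (∀ S : Finset V, G.IsClique (S : Set V) → S.card = r →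
        AR (n - r) (G.induce {u | ∀ s ∈ S, G.Adj s u})) →
      ∀ i : ℕ, (2 * i + r < n ∨ n + r < 2 * i) → L2Van G i) ∧
    (∀ (m : ℕ) (B : Set V), n = 2 * m + 1 → AR (2 * m + 2) (G.induce B) →
      (∀ v, v ∉ B → AR (2 * m + 1) (G.induce (G.neighborSet v))) →
      ∀ i : ℕ, i ≠ m → i ≠ m + 1 → L2Van G i) := by
  intro n V _ _ G hS
  refine ⟨fun r h i hi => near_middle hS h i hi, fun r hr h i hi => ?_, fun m B hn hB h i h1 h2 => ?_⟩
  · exact near_middle hS (AR_cast (by omega) (AR_codim (n - r) r V G h)) i hi
  · subst hn
    exact near_middle (r := 1) hS (AR.loc G B hB h) i (by omega)

end Pool.Agent.Results.MP_f80465_gt.NearMiddle
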